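import Pool.Agent.H701.TJ.Final

set_option autoImplicit false

/-!
# 3SUM-Indexing: space `n ^ (1 + 1 / t)` for `t` adaptive joint probes, with free one-sided memory

Two arrays `A`, `B` of `n` integers from `0, …, n ^ 2` are preprocessed. The memory has `s` cells of
`w` bits, which may be *arbitrary* functions of both arrays, and in addition an unlimited memory
with arbitrary functions of `A` alone and of `B` alone. On a query `z` the algorithm reads `t` of the
`s` joint cells, adaptively: the next address may be an *arbitrary* function of `z`, of the first
array, of public random bits and of the contents read so far. Then the query is answered by an
arbitrary communication protocol of at most `b` bits between the two arrays, which may depend on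
the contents; for instance, `T` adaptive probes of cells of the one-sided memory are such a protocol
with `b = w T`. If the error probability is at most `1 / (2 * 10 ^ 6)`, then

  `n ^ (t + 1) ≤ (10 ^ 19 * t ^ 8 * (w + L) ^ 2 * (b + w * t + L)) ^ (t + 1) * s ^ t`,
  `L = ⌈log₂ n⌉`, that is, `s ≥ (n / polylog) ^ (1 + 1 / t)` if `w`, `t`, `b` are polylogarithmic.

This is the best lower bound which is known for arbitrary data structures with `t` probes
(`n ^ (1 + 1 / t)`, up to factors `n ^ o(1)`), but now neither the one-sided memory counts as space
nor its probes count as time (they only enter as the number `b` of bits, polynomially), and the
addresses may depend on one of the arrays. In particular, space `n polylog n` of joint cells and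
polylogarithmic words and protocols need `t = Ω(log n / log log n)` joint probes. For `t = 1` (space
`n ^ 2`) this is the starting point `AdaptiveJointProbe`.

Proof. As there, one passes to the disjointness of the sets `i` and `j` of two random families with
`k = n / polylog` sets each, for the `k ^ 2` pairs `(i, j)`, and every element is in every set
independently with probability `α = 1 / polylog`.

(1) Direct product theorem for query graphs of bounded degree. Let `S` be a set of pairs `(i, j)`,
with at most `Δ` pairs in every row and column (but without any bound for the number of pairs,
in contrast to the case `t = 1`). Then for all rectangles `F × G` and all `q` with `4 q α Δ ≤ 1`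
  `P(F × G and all pairs in S are disjoint) ≤ exp (- α ^ 2 u |S| / 32) P(F × G) ^ (1 - 1 / q)`.
Two applications of Hölder's inequality (in integer powers) reduce this to the case that `F` and `G`
are everything and the sets are the unions of `q` independent copies; this case is proved by
induction on the number of columns.

(2) Cell sampling which keeps the degrees small. Given the families, the `k ^ 2` queries are
reduced to about `k ^ 2 / g` queries in each of `t` rounds, `g ^ t = k / polylog`; in every round
only queries are kept whose next cell is among `polylog k` cells (if `s ≤ g k`). The queries which
are left are put into bins of one cell: blocks of equally many queries in one row or one column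
with the same cell, as long as there are such blocks, and then one bin for every cell. The bins
are put into groups of `g` bins, and one random bin of every group is selected. A second moment
bound shows that nearly no rows and columns are overloaded. In the end about `k ^ 2 / g ^ t` =
`k polylog` queries are left, at most `polylog` in every row and column, and all their answers are
given by the contents of `k polylog'` cells and by protocols. Which queries are left depends only
on the first family, on the contents and on the selected bins; the union bound over the contents
and the bins is therefore possible, and contradicts (1).
-/

namespace Pool.Agent.Results.MP_e016b3_lc.AdaptiveJointProbes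

open Pool.Agent.H701.TJ

/-- If a random data structure with `s` joint cells of `w` bits, `t` adaptive joint probes (the
addresses are functions of the query, of the first array and of the contents read before) and
protocols of `b` bits solves 3SUM-Indexing on arrays of `n` numbers at most `n ^ 2`, then
`n ^ (t + 1) ≤ (10 ^ 19 * t ^ 8 * (w + L) ^ 2 * (b + w * t + L)) ^ (t + 1) * s ^ t`, `L` being the
number `⌈log₂ n⌉`. -/
theorem result (n t w b s : ℕ) (ht : 1 ≤ t) (hw : 1 ≤ w) (Ω : Type) [Fintype Ω] (p : Ω → ℝ)
    (D : Ω → SumTDS n w s) (h : SolvesSumT t b p D) :
    n ^ (t + 1) ≤ (10 ^ 19 * t ^ 8 * (w + Nat.clog 2 n) ^ 2 *
      (b + w * t + Nat.clog 2 n)) ^ (t + 1) * s ^ t :=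
  sum_t n t w b s ht hw Ω p D h

end Pool.Agent.Results.MP_e016b3_lc.AdaptiveJointProbes
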