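import Pool.Agent.H698.UD.SumUp

set_option autoImplicit false

/-!
# 3SUM-Indexing for data structures that compute with unknown inputs

Two arrays (sets of at most `n` integers from `0, …, N`) are preprocessed.  Each integer is known to
be in an array, known not to be there, or this is unknown.  A data structure (`KDS`) has `s` cells
(and `2 r` free cells, which depend on one array only); their contents are elements of an ordered set
`D` of states of knowledge and are arbitrary functions of the partial knowledge about the arrays
which respect the order: more knowledge about the arrays gives more knowledge in the memory. `D` is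
any partially ordered set in which the elements below a given one form a chain of real numbers. The
query `z` reads places adaptively and says that `z` is a sum, or not, by a condition which is not
lost when the contents of the memory become larger (more is known).

* If `D` is the flat order over an arbitrary set `A` (words, tables, codes, ...) then the cells
  contain arbitrary functions of the arrays, or `unknown` if the knowledge does not determine them
  (or even if it does).
* If `D = ℝ` then these are the monotone data structures.

For all these models at once: if a random structure finds, with advantage `δ`, that `z` is a sum as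
soon as the elements of the arrays are known, and does not assert this if everything is known and
`z` is not a sum, with `t` probes on the average, then
`δ ^ 2 n ^ 2 ≤ 1600 s t log₂ ((n + r) / δ)`, if `400 t log₂ ((n + r) / δ) ≤ δ n` and `n ^ 2 ≤ N`. So
space `Ω~(n ^ 2)` is necessary for polylogarithmic query time; the table of all sums, with
`2 N + 1` cells and one probe, finds for every partial knowledge all that can be known.

Proof. Declare the absent integers unknown. The contents of each cell are then below its contents for
the arrays in which everything is known to be present, so that they lie in a chain, which can be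
represented by real numbers. The conditions of the queries are translated by `Acc`. Then the bound
for monotone structures of `Pool.Graph.R_seed8.H525R4.Mono` applies.
-/

namespace Pool.Agent.Results.MP_e016b3_lc.UnknownInputStructures

open Pool.Agent.H698.HF Pool.Agent.H698.UD
open Pool.Agent.H525R4.Mono (IsSum)
open Flat (unknown known)

/-- (1) Let `D` be a tree-like order of states of knowledge. If a random structure over `D` with `s`
cells and `2 r` free cells solves 3SUM-Indexing with unknown inputs with advantage `δ` and `t` probes
(`KSolves n N p S δ t`), where `0 < δ ≤ 1 / 2`, `t ≥ 1`, `400 t log₂ ((n + r) / δ) ≤ δ n` and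
`n ^ 2 ≤ N`, then `δ ^ 2 n ^ 2 ≤ 1600 s t log₂ ((n + r) / δ)`. (2) A three-valued structure with
`2 N + 1` cells and without free cells does this with one probe and without errors, and its cell
number `c` says for all partial knowledge all that can be known about the question whether `c` is a
sum. (3) The real numbers and all flat orders are tree-like. -/
theorem result :
    (∀ (D : Type) [PartialOrder D], TreeLike D → ∀ (n N s r : ℕ) (δ t : ℝ), 0 < δ → δ ≤ 1 / 2 →
      1 ≤ t → 400 * t * Real.logb 2 ((n + r) / δ) ≤ δ * n → n ^ 2 ≤ N →
      ∀ (Ω : Type) [Fintype Ω] (p : Ω → ℝ) (S : Ω → KDS D s r), KSolves n N p S δ t →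
        δ ^ 2 * (n : ℝ) ^ 2 ≤ 1600 * s * t * Real.logb 2 ((n + r) / δ)) ∧
    (∀ N : ℕ, ∃ T : KDS (Flat Bool) (2 * N + 1) 0,
      (∀ n, KSolves n N (fun _ : Unit => 1) (fun _ => T) (1 / 2) 1) ∧
      ∀ P Q : Know ℤ, (∃ A, Fits N P A) → (∃ B, Fits N Q B) → ∀ c : Fin (2 * N + 1),
        (T.cell c P Q = known true ↔
          ∀ A B, Fits N P A → Fits N Q B → IsSum A B (c.val : ℤ)) ∧
        (T.cell c P Q = known false ↔
          ∀ A B, Fits N P A → Fits N Q B → ¬ IsSum A B (c.val : ℤ))) ∧
    TreeLike ℝ ∧ ∀ A : Type, TreeLike (Flat A) := by
  refine ⟨?_, fun N => ⟨table N, fun n => table_solves n N, table_exact N⟩, treeLike_real,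
    fun A => Flat.treeLike⟩
  intro D _ hD n N s r δ t hδ hδ2 ht hnt hN Ω _ p S hS
  exact lowerK hD hδ hδ2 ht hnt hN p S hS

end Pool.Agent.Results.MP_e016b3_lc.UnknownInputStructures
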